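import Pool.Agent.Helper4_FreeTVS.Defs
import Pool.Agent.Helper4_FreeTVS.Suff
import Pool.Agent.Helper4_FreeTVS.Nec2

set_option autoImplicit false

universe u

open Pool.Agent.Helper4FreeTVS

/-- **Answer to Q1 of MP_24cde2_gt: yes.**
Let `X` be a metrizable space and `(V, i)` its free topological vector space.  If the level
`sp_2(X)` (with the subspace topology of `V = V(X)`) is a `k`-space, then so is `sp_4(X)`.
(`CompactlyCoherentSpace Z` is Mathlib's notion of a `k`-space: a set is closed iff its
intersection with each compact `K ⊆ Z` is closed in `K`.) -/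
theorem Pool.Agent.Results.MP_24cde2_gt.LevelTwoGivesLevelFour.result
    (X : Type u) [TopologicalSpace X] [TopologicalSpace.MetrizableSpace X]
    (V : Type u) [AddCommGroup V] [Module ℝ V] [TopologicalSpace V] (i : X → V)
    (hV : IsFreeTVS X V i)
    (h2 : CompactlyCoherentSpace (sp i 2)) :
    CompactlyCoherentSpace (sp i 4) := by
  have h := (coherent_sp_iff hV 2).1 h2
  have h1 := locallyCompact_of_coherent h
  have h3 := secondCountable_of_coherent h
  exact (coherent_sp_iff hV 4).2 (coherent_sp 4)
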